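import Pool.Agent.Lib.H86T.Main

/-!
# Hamiltonians on the torus `T^{2n}` which depend on some of the planes `(x_i, y_i)` only through one function `f_i`
-/

namespace Pool.Agent.Results.MP_dec836_gt.PlaneIntegrals

/-- The flow hypothesis of the frozen statement S14095: no non-constant orbit of the Hamiltonian flow of `H` closes
modulo `ℤ^{2n}` in a time `T` with `0 < T ≤ 1`. -/
def NoFast {n : ℕ} (H : (Fin n → ℝ) × (Fin n → ℝ) → ℝ) : Prop :=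
  ∀ T : ℝ, ∀ γ : ℝ → (Fin n → ℝ) × (Fin n → ℝ), 0 < T → T ≤ 1 →
    (∀ t : ℝ, HasDerivAt γ
      ((fun i => fderiv ℝ H (γ t) ((0 : Fin n → ℝ), (Pi.single i (1 : ℝ) : Fin n → ℝ))),
       (fun i => - fderiv ℝ H (γ t) ((Pi.single i (1 : ℝ) : Fin n → ℝ), (0 : Fin n → ℝ)))) t) →
    (∃ a b : Fin n → ℤ, γ T = γ 0 + ((fun i => (a i : ℝ)), (fun i => (b i : ℝ)))) →
    ∀ t : ℝ, γ t = γ 0

/-- The point `z = (x, y)` with `(x_i, y_i)` replaced by `p_i` for `i ∈ A`. -/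
def frz {n : ℕ} (A : Finset (Fin n)) (p : Fin n → ℝ × ℝ) (z : (Fin n → ℝ) × (Fin n → ℝ)) :
    (Fin n → ℝ) × (Fin n → ℝ) :=
  ((fun i => if i ∈ A then (p i).1 else z.1 i), (fun i => if i ∈ A then (p i).2 else z.2 i))

/-- Let `H` be smooth and `ℤ^{2n}`-periodic on `ℝ^n × ℝ^n`, without non-constant orbits closing modulo `ℤ^{2n}` in time
`T ≤ 1`, and suppose that `H` depends on the planes `(x_i, y_i)`, `i ∈ A`, only through functions `f_i (x_i, y_i)`: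
`H (x, y) = G ((f_i (x_i, y_i))_{i ∈ A}, (x_i, y_i)_{i ∉ A})` with `G` smooth and `f_i` smooth and `ℤ²`-periodic. Then:

(a) for all critical points `p_i` of `f_i`, `i ∈ A`, the function obtained by putting `(x_i, y_i) = p_i` for `i ∈ A` has no such
orbits either, and the oscillation of `H` is at most `66 |A|` plus the oscillation of this function;

(b) if `A` contains all indices but one, the oscillation of `H` is at most `33 (2 n - 1)`. -/
theorem result (n : ℕ) (H : (Fin n → ℝ) × (Fin n → ℝ) → ℝ) (hsm : ContDiff ℝ ((⊤ : ℕ∞) : WithTop ℕ∞) H)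
    (hper : ∀ z : (Fin n → ℝ) × (Fin n → ℝ), ∀ a b : Fin n → ℤ,
      H (z + ((fun i => (a i : ℝ)), (fun i => (b i : ℝ)))) = H z)
    (horb : NoFast H)
    (A : Finset (Fin n)) (f : Fin n → ℝ × ℝ → ℝ) (hf : ∀ i ∈ A, ContDiff ℝ ((⊤ : ℕ∞) : WithTop ℕ∞) (f i))
    (hfp : ∀ i ∈ A, ∀ (x y : ℝ) (a b : ℤ), f i (x + a, y + b) = f i (x, y))
    (G : (Fin n → ℝ) × ((Fin n → ℝ) × (Fin n → ℝ)) → ℝ) (hG : ContDiff ℝ ((⊤ : ℕ∞) : WithTop ℕ∞) G)
    (hH : ∀ z, H z = G ((fun i => if i ∈ A then f i (z.1 i, z.2 i) else 0), frz A 0 z)) :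
    (∀ p : Fin n → ℝ × ℝ, (∀ i ∈ A, fderiv ℝ (f i) (p i) = 0) →
      NoFast (fun z => H (frz A p z)) ∧ ∀ C : ℝ, (∀ z w, H (frz A p z) - H (frz A p w) ≤ C) →
        ∀ z w, H z - H w ≤ 66 * A.card + C) ∧
    (∀ j : Fin n, (∀ i, i ∈ A ↔ i ≠ j) → ∀ z w, H z - H w ≤ 33 * (2 * n - 1)) := by
  have h : H86T.Dat H A f G := ⟨hsm.of_le (by norm_cast), hper, fun T γ h1 h2 h3 h4 => horb T γ h1 h2 h3 h4,
    fun i hi => (hf i hi).of_le (by norm_cast), hfp, hG.of_le (by norm_cast), hH⟩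
  refine ⟨fun p hp => ?_, fun j hj z w => H86T.main_b h hj z w⟩
  obtain ⟨h1, h2⟩ := H86T.main_a h hp
  exact ⟨fun T γ h1' h2' h3' h4' => h1 T γ h1' h2' h3' h4', h2⟩

end Pool.Agent.Results.MP_dec836_gt.PlaneIntegrals
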