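import Pool.Agent.Lib.H25S.G6

/-!
# Hamiltonians on the four-dimensional torus which are invariant under a one-parameter group of translations
-/

namespace Pool.Agent.Results.MP_dec836_gt.TranslationSymmetry

/-- Let `H` be smooth and `ℤ⁴`-periodic on `ℝ² × ℝ²` and invariant under the translations `z ↦ z + t u`, `t ∈ ℝ`, for
some `u ≠ 0`. Suppose that the Hamiltonian flow of `H` has no non-constant orbit closing modulo `ℤ⁴` in time `T ≤ 1`.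
Then `max H - min H ≤ 33`. -/
theorem result (H : (Fin 2 → ℝ) × (Fin 2 → ℝ) → ℝ) (hsm : ContDiff ℝ ((⊤ : ℕ∞) : WithTop ℕ∞) H)
    (hper : ∀ z : (Fin 2 → ℝ) × (Fin 2 → ℝ), ∀ a b : Fin 2 → ℤ,
      H (z + ((fun i => (a i : ℝ)), (fun i => (b i : ℝ)))) = H z)
    (u : (Fin 2 → ℝ) × (Fin 2 → ℝ)) (hu : u ≠ 0) (hinv : ∀ (z : (Fin 2 → ℝ) × (Fin 2 → ℝ)) (t : ℝ), H (z + t • u) = H z)
    (horb : ∀ T : ℝ, ∀ γ : ℝ → (Fin 2 → ℝ) × (Fin 2 → ℝ), 0 < T → T ≤ 1 →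
      (∀ t : ℝ, HasDerivAt γ
        ((fun i => fderiv ℝ H (γ t) ((0 : Fin 2 → ℝ), (Pi.single i (1 : ℝ) : Fin 2 → ℝ))),
         (fun i => - fderiv ℝ H (γ t) ((Pi.single i (1 : ℝ) : Fin 2 → ℝ), (0 : Fin 2 → ℝ)))) t) →
      (∃ a b : Fin 2 → ℤ, γ T = γ 0 + ((fun i => (a i : ℝ)), (fun i => (b i : ℝ)))) →
      ∀ t : ℝ, γ t = γ 0)
    (z w : (Fin 2 → ℝ) × (Fin 2 → ℝ)) : H z - H w ≤ 33 :=
  H25S.main ⟨hsm.of_le (by norm_cast), hper, fun T γ h1 h2 h3 h4 => horb T γ h1 h2 h3 h4⟩ hu hinv z w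

end Pool.Agent.Results.MP_dec836_gt.TranslationSymmetry
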